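import Mathlib

set_option autoImplicit false

open Filter Topology Set

namespace Pool.Agent.Results.MP_3e6e51_an.No

variable {S : Type}

open Classical in
noncomputable def d (x y : ℕ → S) : ℝ :=
  if h : ∃ i, x i ≠ y i then (1 / 2) ^ Nat.find h else 0

def shift (x : ℕ → S) : ℕ → S := fun i => x (i + 1)

def Walters (f : (ℕ → S) → ℝ) : Prop :=
  ∀ κ > (0 : ℝ), ∃ ε > (0 : ℝ), ∀ n ≥ 1, ∀ x y : ℕ → S,
    (∀ k < n, d (shift^[k] x) (shift^[k] y) < ε) →
      |birkhoffSum shift f n x - birkhoffSum shift f n y| < κ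

def Bowen (f : (ℕ → S) → ℝ) : Prop :=
  ∃ M > (0 : ℝ), ∃ ε > (0 : ℝ), ∀ n ≥ 1, ∀ x y : ℕ → S,
    (∀ k < n, d (shift^[k] x) (shift^[k] y) < ε) →
      |birkhoffSum shift f n x - birkhoffSum shift f n y| ≤ M

def Cob (S : Type) [TopologicalSpace S] : Set C(ℕ → S, ℝ) :=
  {g | ∃ q : C(ℕ → S, ℝ), ∀ x, g x = q (shift x) - q x}

theorem shift_iter (x : ℕ → S) (k i : ℕ) : shift^[k] x i = x (i + k) := by
  induction k generalizing x with
  | zero => rfl
  | succ k ih => rw [Function.iterate_succ_apply, ih]; rfl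

theorem d_lt {x y : ℕ → S} {N : ℕ} {ε : ℝ} (hε : (1 / 2 : ℝ) ^ N < ε) (h : ∀ i < N, x i = y i) :
    d x y < ε := by
  classical
  unfold d
  split_ifs with h1
  · refine lt_of_le_of_lt (pow_le_pow_of_le_one (by norm_num) (by norm_num) ?_) hε
    by_contra h2
    exact Nat.find_spec h1 (h _ (not_le.1 h2))
  · exact lt_of_le_of_lt (by positivity) hε

theorem eq_of_d {x y : ℕ → S} (h : d x y < 1) : x 0 = y 0 := by
  classical
  by_contra h0
  unfold d at h
  rw [dif_pos ⟨0, h0⟩, (Nat.find_eq_zero _).2 h0] at h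
  simp at h

noncomputable def A (k : ℕ) : ℝ := Real.cos (Real.log (k + 1) / Real.log 2 * Real.pi) - 1

theorem A_zero : A 0 = 0 := by simp [A]

theorem A_abs (k : ℕ) : |A k| ≤ 2 := by
  unfold A
  rw [abs_le]
  constructor <;> linarith [Real.neg_one_le_cos (Real.log (k + 1) / Real.log 2 * Real.pi),
    Real.cos_le_one (Real.log (k + 1) / Real.log 2 * Real.pi)]

theorem A_pow (j : ℕ) : A (2 ^ j - 1) = (-1) ^ j - 1 := by
  unfold A
  have h : (((2 ^ j - 1 : ℕ) : ℝ) + 1) = 2 ^ j := by
    rw [Nat.cast_sub Nat.one_le_two_pow]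
    simp
  rw [h, Real.log_pow, mul_div_assoc, div_self (Real.log_pos one_lt_two).ne', mul_one,
    Real.cos_nat_mul_pi]

theorem A_diff : Tendsto (fun k => A (k + 1) - A k) atTop (𝓝 0) := by
  have h1 := ((Real.tendsto_log_nat_add_one_sub_log.comp (tendsto_add_atTop_nat 1)).div_const
    (Real.log 2)).mul_const Real.pi
  rw [zero_div, zero_mul] at h1
  refine squeeze_zero_norm (fun k => ?_) (by simpa using h1.abs)
  unfold A
  rw [sub_sub_sub_cancel_right]
  refine (Real.abs_cos_sub_cos_le _ _).trans (le_of_eq ?_)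
  rw [← sub_mul, ← sub_div, abs_mul]
  simp

open Classical in
noncomputable def v (a : S) (x : ℕ → S) : ℝ :=
  if h : ∃ i, x i ≠ a then A (Nat.find h) else 0

open Classical in
noncomputable def φ (a : S) (x : ℕ → S) : ℝ := if x 0 = a then v a x - v a (shift x) else 0

theorem v_abs (a : S) (x : ℕ → S) : |v a x| ≤ 2 := by
  unfold v
  split_ifs
  · exact A_abs _
  · simp

theorem v_eq {a : S} {x : ℕ → S} {k : ℕ} (hk : x k ≠ a) (h : ∀ i < k, x i = a) : v a x = A k := by
  classical
  unfold v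
  rw [dif_pos ⟨k, hk⟩, (Nat.find_eq_iff _).2 ⟨hk, fun i hi => not_not.2 (h i hi)⟩]

theorem φ_eq {a : S} {x : ℕ → S} {k : ℕ} (hk : x (k + 1) ≠ a) (h : ∀ i < k + 1, x i = a) :
    φ a x = A (k + 1) - A k := by
  unfold φ
  rw [if_pos (h 0 (by omega)), v_eq hk h, v_eq (x := shift x) hk fun i hi => h _ (by omega)]

theorem φ_const (a : S) : φ a (fun _ => a) = 0 := by
  simp [φ, v, shift]

theorem φ_congr {a : S} {x y : ℕ → S} {n : ℕ} (h : ∀ i < n, x i = y i) (hx : ∃ i < n, x i ≠ a) :
    φ a x = φ a y := by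
  classical
  have h1 : ∃ i, x i ≠ a := let ⟨i, _, hi⟩ := hx; ⟨i, hi⟩
  have h2 : Nat.find h1 < n := let ⟨i, hi, hi'⟩ := hx; (Nat.find_min' h1 hi').trans_lt hi
  have h3 := Nat.find_spec h1
  have h4 : ∀ i < Nat.find h1, x i = a := fun i hi => not_not.1 (Nat.find_min h1 hi)
  generalize Nat.find h1 = k at h2 h3 h4
  cases k with
  | zero =>
    unfold φ
    rw [if_neg h3, if_neg (h 0 h2 ▸ h3)]
  | succ k =>
    rw [φ_eq h3 h4, φ_eq (x := y) (k := k) (h _ h2 ▸ h3) fun i hi => by
      rw [← h i (by omega)]; exact h4 i hi]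

theorem sum_run {a : S} {n : ℕ} {x : ℕ → S} (h : ∀ i < n, x i = a) :
    birkhoffSum shift (φ a) n x = v a x - v a (shift^[n] x) := by
  induction n with
  | zero => simp
  | succ n ih =>
    rw [birkhoffSum_succ, ih fun i hi => h i (by omega), Function.iterate_succ_apply', φ,
      if_pos (by rw [shift_iter]; exact h _ (by omega))]
    ring

theorem bowen_aux (a : S) (n : ℕ) : ∀ x y : ℕ → S, (∀ i < n, x i = y i) →
    |birkhoffSum shift (φ a) n x - birkhoffSum shift (φ a) n y| ≤ 8 := by
  induction n with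
  | zero => simp
  | succ n ih =>
    intro x y h
    by_cases hx : ∃ i < n + 1, x i ≠ a
    · rw [birkhoffSum_succ', birkhoffSum_succ', φ_congr h hx, add_sub_add_left_eq_sub]
      exact ih _ _ fun i hi => h _ (by omega)
    · push Not at hx
      rw [sum_run hx, sum_run fun i hi => h i hi ▸ hx i hi]
      have h1 := abs_le.1 (v_abs a x)
      have h2 := abs_le.1 (v_abs a y)
      have h3 := abs_le.1 (v_abs a (shift^[n + 1] x))
      have h4 := abs_le.1 (v_abs a (shift^[n + 1] y))
      rw [abs_le]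
      constructor <;> linarith [h1.1, h1.2, h2.1, h2.2, h3.1, h3.2, h4.1, h4.2]

theorem φ_cont [TopologicalSpace S] [DiscreteTopology S] (a : S) : Continuous (φ a) := by
  classical
  have hn : ∀ (x : ℕ → S) (n : ℕ), ∀ᶠ y in 𝓝 x, ∀ i < n, x i = y i := fun x n => by
    filter_upwards [(PiNat.isOpen_cylinder (fun _ => S) x n).mem_nhds (PiNat.self_mem_cylinder x n)]
      with y hy i hi using (PiNat.mem_cylinder_iff.1 hy i hi).symm
  refine continuous_iff_continuousAt.2 fun x => ?_
  by_cases hx : ∃ i, x i ≠ a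
  · obtain ⟨i, hi⟩ := hx
    refine (continuousAt_const (y := φ a x)).congr ?_
    filter_upwards [hn x (i + 1)] with y hy using φ_congr hy ⟨i, by omega, hi⟩
  · push Not at hx
    obtain rfl : x = fun _ => a := funext hx
    rw [ContinuousAt, φ_const, Metric.tendsto_nhds]
    intro ε hε
    obtain ⟨N, hN⟩ := eventually_atTop.1 (Metric.tendsto_nhds.1 A_diff ε hε)
    filter_upwards [hn (fun _ => a) (N + 1)] with y hy
    by_cases h1 : ∃ i, y i ≠ a
    · have h3 := Nat.find_spec h1
      have h4 : ∀ i < Nat.find h1, y i = a := fun i hi => not_not.1 (Nat.find_min h1 hi)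
      generalize Nat.find h1 = k at h3 h4
      have h5 : N + 1 ≤ k := by
        by_contra h5
        exact h3 (hy k (not_le.1 h5)).symm
      obtain ⟨k, rfl⟩ : ∃ j, k = j + 1 := ⟨k - 1, by omega⟩
      rw [φ_eq h3 h4]
      exact hN k (by omega)
    · push Not at h1
      obtain rfl : y = fun _ => a := funext h1
      simpa [φ_const] using hε

theorem per_zero [TopologicalSpace S] {g : C(ℕ → S, ℝ)} (hg : g ∈ closure (Cob S)) {m : ℕ}
    {p : ℕ → S} (hp : shift^[m] p = p) : birkhoffSum shift g m p = 0 := by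
  have hc : IsClosed {g : C(ℕ → S, ℝ) | birkhoffSum shift g m p = 0} := by
    refine isClosed_eq ?_ continuous_const
    unfold birkhoffSum
    exact continuous_finsetSum _ fun k _ => continuous_eval_const _
  refine closure_minimal ?_ hc hg
  rintro g ⟨q, hq⟩
  change ∑ k ∈ Finset.range m, g (shift^[k] p) = 0
  have : ∀ k, g (shift^[k] p) = q (shift^[k + 1] p) - q (shift^[k] p) := fun k => by
    rw [hq, Function.iterate_succ_apply']
  simp only [this]
  rw [Finset.sum_range_sub (fun k => q (shift^[k] p)), hp]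
  simp

def per (a b : S) (n : ℕ) : ℕ → S := fun i => if i % (n + 1) = n then b else a

theorem per_lt (a b : S) {n i : ℕ} (hi : i < n) : per a b n i = a := by
  unfold per
  rw [Nat.mod_eq_of_lt (by omega), if_neg hi.ne]

theorem per_self (a b : S) (n : ℕ) : per a b n n = b := by
  unfold per
  rw [Nat.mod_eq_of_lt (by omega), if_pos rfl]

theorem per_add (a b : S) (n i : ℕ) : per a b n (i + (n + 1)) = per a b n i := by
  unfold per
  rw [Nat.add_mod_right]

theorem result (S : Type) [Finite S] [Nontrivial S] [TopologicalSpace S] [DiscreteTopology S] :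
    ∃ f : C(ℕ → S, ℝ), Bowen f ∧
      ∀ h : C(ℕ → S, ℝ), Walters h → f - h ∉ closure (Cob S) := by
  obtain ⟨a, b, hab⟩ := exists_pair_ne S
  refine ⟨⟨φ a, φ_cont a⟩, ⟨8, by norm_num, 1, one_pos, fun n _ x y h => ?_⟩, fun h hW hc => ?_⟩
  · refine bowen_aux a n x y fun i hi => ?_
    have := eq_of_d (h i hi)
    rwa [shift_iter, shift_iter, zero_add] at this
  have key : ∀ (m : ℕ) (p : ℕ → S), shift^[m] p = p →
      birkhoffSum shift h m p = birkhoffSum shift (φ a) m p := by
    intro m p hp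
    have := per_zero hc hp
    simp only [birkhoffSum, ContinuousMap.sub_apply, ContinuousMap.coe_mk,
      Finset.sum_sub_distrib] at this ⊢
    linarith
  have hper : ∀ n, birkhoffSum shift h (n + 1) (per a b n) = A n := by
    intro n
    have hb : shift^[n] (per a b n) 0 ≠ a := by
      rw [shift_iter, zero_add, per_self]
      exact hab.symm
    rw [key _ _ (funext fun i => by rw [shift_iter, per_add]), birkhoffSum_succ,
      sum_run fun i hi => per_lt a b hi, φ, if_neg hb, v_eq hb (by simp),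
      v_eq (k := n) (by rw [per_self]; exact hab.symm) fun i hi => per_lt a b hi, A_zero]
    ring
  have hfix : ∀ m, birkhoffSum shift h m (fun _ => a) = 0 := by
    intro m
    rw [key m _ (funext fun i => by rw [shift_iter]), sum_run fun _ _ => rfl,
      (funext fun i => by rw [shift_iter] : shift^[m] (fun _ => a) = fun _ => a), sub_self]
  obtain ⟨ε, hε, hW⟩ := hW (1 / 2) (by norm_num)
  obtain ⟨N, hN⟩ := exists_pow_lt_of_lt_one hε (by norm_num : (1 / 2 : ℝ) < 1)
  have hW' : ∀ m ≥ 1, ∀ x y : ℕ → S, (∀ i < m + N, x i = y i) →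
      |birkhoffSum shift h m x - birkhoffSum shift h m y| < 1 / 2 := fun m hm x y hxy =>
    hW m hm x y fun k hk => d_lt hN fun i hi => by
      rw [shift_iter, shift_iter]
      exact hxy _ (by omega)
  have hAA : ∀ n t, N ≤ n → 1 ≤ t → |A (t + n) - A n| < 1 := by
    intro n t hn ht
    have h1 := hW' t ht (per a b (t + n)) (fun _ => a) fun i hi => per_lt a b (by omega)
    have h2 := hW' (n + 1) (by omega) (shift^[t] (per a b (t + n))) (per a b n) fun i hi => by
      rw [shift_iter]
      rcases lt_trichotomy i n with h3 | h3 | h3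
      · rw [per_lt a b h3, per_lt a b (by omega)]
      · rw [h3, per_self, add_comm, per_self]
      · obtain ⟨j, rfl⟩ : ∃ j, i = j + (n + 1) := ⟨i - (n + 1), by omega⟩
        rw [per_add, show j + (n + 1) + t = j + (t + n + 1) by omega, per_add,
          per_lt a b (by omega), per_lt a b (by omega)]
    have h3 := hper (t + n)
    rw [add_assoc, birkhoffSum_add] at h3
    rw [hfix] at h1
    rw [hper] at h2
    rw [abs_lt] at h1 h2 ⊢
    constructor <;> linarith [h1.1, h1.2, h2.1, h2.2]
  have h1 : N < 2 ^ N := Nat.lt_two_pow_self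
  have h2 := hAA (2 ^ N - 1) (2 ^ N) (by omega) (by omega)
  rw [show 2 ^ N + (2 ^ N - 1) = 2 ^ (N + 1) - 1 by rw [pow_succ]; omega, A_pow, A_pow,
    pow_succ] at h2
  rcases neg_one_pow_eq_or ℝ N with h3 | h3 <;> rw [h3] at h2 <;> norm_num at h2

end Pool.Agent.Results.MP_3e6e51_an.No
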